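import Pool.Agent.Helper68.Fam.Goals

/-!
# Project FAM (MP_18808e_co): packet PLANE
-/

namespace NApexGraphs.Fam.Helper96

open SimpleGraph NApexGraphs NApexGraphs.Dom NApexGraphs.Fam

theorem gPLANE : Goals.POLE → Goals.PLANE := by
  intro hPOLE V _ _ G F H X u v E hT hK huE hvE hEX hX hTE hdeg hconn
  classical
  let S : Set (V ⊕ {T // T ∈ F}) := {z | ∃ T, z = Sum.inr T ∧ Sum.inr T ∉ X}
  have hSmem : ∀ z ∈ S, ∃ T, z = Sum.inr T ∧ Sum.inr T ∉ X := fun z hz => hz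
  -- adjacency in the virtual graph
  have hadj1 : ∀ p ∈ E, ∀ q ∈ E, (VG H S).Adj (Sum.inl p) (Sum.inl q) → G.Adj p q := by
    intro p hp q hq h
    obtain ⟨hne, h⟩ := h
    have hpq : p ≠ q := fun h' => hne (by rw [h'])
    rcases h with h | ⟨y, hy, h1, h2⟩
    · exact (hK.pp p q (hEX p hp) (hEX q hq) h).1
    · obtain ⟨T, rfl, hTX⟩ := hSmem y hy
      exact hT.clique T.1 T.2 p (hK.yp T p hTX (hEX p hp) h1) q (hK.yp T q hTX (hEX q hq) h2) hpq
  have hadj2 : ∀ p ∈ E, ∀ q ∈ E, G.Adj p q → (VG H S).Adj (Sum.inl p) (Sum.inl q) := by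
    intro p hp q hq h
    refine ⟨fun h' => h.ne (Sum.inl.inj h'), ?_⟩
    have hpu : p ≠ u := fun h' => huE (h' ▸ hp)
    have hpv : p ≠ v := fun h' => hvE (h' ▸ hp)
    have hqu : q ≠ u := fun h' => huE (h' ▸ hq)
    have hqv : q ≠ v := fun h' => hvE (h' ▸ hq)
    rcases hK.vir p q (hEX p hp) (hEX q hq) h hpu hpv hqu hqv with h1 | ⟨T, hTX, h1, h2⟩
    · exact Or.inl h1
    · exact Or.inr ⟨Sum.inr T, ⟨T, rfl, hTX⟩, h1, h2⟩
  have hP : Pole H (Sum.inl u) (Sum.inl v) (Sum.inl '' (E : Set V)) S := by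
    refine ⟨hK.uv, ?_, ?_, ?_, ?_, ?_, ?_, ?_, ?_, ?_, ?_, ?_, ?_⟩
    · rintro ⟨x, hx, h⟩
      exact huE (Sum.inl.inj h ▸ hx)
    · rintro ⟨x, hx, h⟩
      exact hvE (Sum.inl.inj h ▸ hx)
    · rintro ⟨T, h, -⟩
      exact absurd h (by simp)
    · rintro ⟨T, h, -⟩
      exact absurd h (by simp)
    · rw [Set.disjoint_left]
      rintro z ⟨x, -, rfl⟩ ⟨T, h, -⟩
      exact absurd h (by simp)
    · rintro y ⟨T, rfl, -⟩ y' ⟨T', rfl, -⟩
      exact hK.yy T T'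
    · intro huv y hy h
      obtain ⟨T, rfl, hTX⟩ := hSmem y hy
      exact hK.yuv (fun h' => huv (by rw [h'])) T hTX h
    · rintro y hy a ⟨a', ha, rfl⟩ b ⟨b', hb, rfl⟩ c ⟨c', hc, rfl⟩ h1 h2 h3
      obtain ⟨T, rfl, hTX⟩ := hSmem y hy
      have m1 : a' ∈ T.1 ∩ E := Finset.mem_inter.2 ⟨hK.yp T a' hTX (hEX a' ha) h1, ha⟩
      have m2 : b' ∈ T.1 ∩ E := Finset.mem_inter.2 ⟨hK.yp T b' hTX (hEX b' hb) h2, hb⟩
      have m3 : c' ∈ T.1 ∩ E := Finset.mem_inter.2 ⟨hK.yp T c' hTX (hEX c' hc) h3, hc⟩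
      have hc2 := hTE T.1 T.2
      by_contra hcon
      push Not at hcon
      obtain ⟨n1, n2, n3⟩ := hcon
      have n1' : a' ≠ b' := fun h => n1 (by rw [h])
      have n2' : a' ≠ c' := fun h => n2 (by rw [h])
      have n3' : b' ≠ c' := fun h => n3 (by rw [h])
      have hsub : ({a', b', c'} : Finset V) ⊆ T.1 ∩ E := by
        intro z hz
        simp only [Finset.mem_insert, Finset.mem_singleton] at hz
        rcases hz with rfl | rfl | rfl <;> assumption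
      have hcard := Finset.card_le_card hsub
      rw [Finset.card_eq_three.2 ⟨a', b', c', n1', n2', n3', rfl⟩] at hcard
      omega
    · rintro y hy p ⟨p', hp, rfl⟩ q ⟨q', hq, rfl⟩ hpq h1 h2 h3
      obtain ⟨T, rfl, hTX⟩ := hSmem y hy
      exact (hK.pp p' q' (hEX p' hp) (hEX q' hq) h3).2 T hTX
        ⟨hK.yp T p' hTX (hEX p' hp) h1, hK.yp T q' hTX (hEX q' hq) h2⟩
    · rintro y hy y' hy' p ⟨p', hp, rfl⟩ q ⟨q', hq, rfl⟩ hpq h1 h2 h3 h4
      obtain ⟨T, rfl, hTX⟩ := hSmem y hy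
      obtain ⟨T', rfl, hTX'⟩ := hSmem y' hy'
      have hpq' : p' ≠ q' := fun h => hpq (by rw [h])
      by_contra hne
      have hTT : T.1 ≠ T'.1 := fun h => hne (by rw [Subtype.ext h])
      have hcard := hT.pair T.1 T.2 T'.1 T'.2 hTT
      have m1 : p' ∈ T.1 ∩ T'.1 := Finset.mem_inter.2
        ⟨hK.yp T p' hTX (hEX p' hp) h1, hK.yp T' p' hTX' (hEX p' hp) h3⟩
      have m2 : q' ∈ T.1 ∩ T'.1 := Finset.mem_inter.2
        ⟨hK.yp T q' hTX (hEX q' hq) h2, hK.yp T' q' hTX' (hEX q' hq) h4⟩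
      exact hpq' (Finset.card_le_one.1 hcard p' m1 q' m2)
    · rintro p ⟨p', hp, rfl⟩ a ⟨a', ha, rfl⟩ b ⟨b', hb, rfl⟩ c ⟨c', hc, rfl⟩ h1 h2 h3
      rcases hdeg p' hp a' ha b' hb c' hc (hadj1 p' hp a' ha h1) (hadj1 p' hp b' hb h2)
        (hadj1 p' hp c' hc h3) with h | h | h
      · exact Or.inl (by rw [h])
      · exact Or.inr (Or.inl (by rw [h]))
      · exact Or.inr (Or.inr (by rw [h]))
    · refine ⟨hconn.1.image _, ?_⟩
      intro A hA hne hcl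
      have key := hconn.2 (Sum.inl ⁻¹' A) (by
        intro x hx
        obtain ⟨x', hx', h⟩ := hA hx
        exact Sum.inl.inj h ▸ hx') (by
        obtain ⟨z, hz⟩ := hne
        obtain ⟨x', hx', rfl⟩ := hA hz
        exact ⟨x', hz⟩) (by
        intro x hx y hy hxy
        obtain ⟨x', hx', h⟩ := hA hx
        have hxE : x ∈ E := Sum.inl.inj h ▸ hx'
        exact hcl (Sum.inl x) hx (Sum.inl y) ⟨y, hy, rfl⟩ (hadj2 x hxE y hy hxy))
      rintro z ⟨x, hx, rfl⟩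
      exact key hx
  have hPl := hPOLE _ H (Sum.inl u) (Sum.inl v) (Sum.inl '' (E : Set V)) S hP
  refine hPl.mono le_rfl ?_
  rintro (x | T) hz
  · have hz' : Sum.inl x ∉ X := fun h => hz (Finset.mem_coe.2 h)
    rcases hX x hz' with h | h | h
    · exact Or.inl (Or.inl ⟨x, h, rfl⟩)
    · exact Or.inr (Or.inl (by rw [h]))
    · exact Or.inr (Or.inr (by rw [Set.mem_singleton_iff, h]))
  · have hz' : Sum.inr T ∉ X := fun h => hz (Finset.mem_coe.2 h)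
    exact Or.inl (Or.inr ⟨T, rfl, hz'⟩)

end NApexGraphs.Fam.Helper96
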